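import Pool.Agent.Helper517.HS.Graph

/-!
The graph is not 3-edge-colourable.
-/

set_option autoImplicit false

namespace Pool.Agent.Helper517.HS

/-- an edge colouring with colours 0, 1, 2, as a function on pairs of numbers -/
structure ECol (K : ℕ → ℕ → ℕ) : Prop where
  sym : ∀ u v, K u v = K v u
  lt : ∀ u v, K u v < 3
  inj : ∀ k < 58, ∀ v ∈ nb k, ∀ w ∈ nb k, K k v = K k w → v = w

def cols (K : ℕ → ℕ → ℕ) (F : List (ℕ × ℕ)) : List ℕ := F.map (fun e => K e.1 e.2)

variable {K : ℕ → ℕ → ℕ}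

theorem restc_cols (k : ℕ) : ∀ F, restc k F (cols K F) = cols K (restF k F)
  | [] => rfl
  | e :: F => by
    have ih := restc_cols k F
    unfold cols restF at ih ⊢
    by_cases h : e.2 = k
    · simp only [List.map_cons, restc, if_pos h]
      rw [ih, List.filter_cons_of_neg (by simp [h])]
    · simp only [List.map_cons, restc, if_neg h]
      rw [ih, List.filter_cons_of_pos (by simp [h])]
      rfl

theorem oldc_cols (k : ℕ) : ∀ F, oldc k F (cols K F) = cols K (F.filter (fun e => e.2 == k))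
  | [] => rfl
  | e :: F => by
    have ih := oldc_cols k F
    unfold cols at ih ⊢
    by_cases h : e.2 = k
    · simp only [List.map_cons, oldc, if_pos h]
      rw [ih, List.filter_cons_of_pos (by simp [h])]
      rfl
    · simp only [List.map_cons, oldc, if_neg h]
      rw [ih, List.filter_cons_of_neg (by simp [h])]

theorem mem_exts : ∀ (nc oc : List ℕ), (∀ c ∈ nc, c < 3) → nc.Nodup → (∀ c ∈ nc, c ∉ oc) →
    nc ∈ exts oc nc.length
  | [], oc, _, _, _ => by simp [exts]
  | c :: nc, oc, h1, h2, h3 => by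
    rw [List.length_cons, exts, List.mem_flatMap]
    refine ⟨c, ?_, ?_⟩
    · have := h1 c List.mem_cons_self
      simp only [List.mem_cons, List.not_mem_nil, or_false]
      omega
    · have hc : c ∉ oc := h3 c List.mem_cons_self
      have hc' : oc.elem c = false := by simpa using hc
      rw [hc']
      simp only [Bool.false_eq_true, if_false]
      rw [List.mem_map]
      refine ⟨nc, mem_exts nc (c :: oc) (fun x hx => h1 x (List.mem_cons_of_mem _ hx))
        (List.nodup_cons.1 h2).2 ?_, rfl⟩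
      intro x hx hx2
      rcases List.mem_cons.1 hx2 with rfl | hx2
      · exact (List.nodup_cons.1 h2).1 hx
      · exact h3 x (List.mem_cons_of_mem _ hx) hx2

/-- invariant of the frontier -/
structure Inv (k : ℕ) (F : List (ℕ × ℕ)) : Prop where
  mem : ∀ e ∈ F, e.1 < k ∧ k ≤ e.2 ∧ e.1 < 58 ∧ e.2 ∈ nb e.1
  nd : F.Nodup

theorem mem_newE {k : ℕ} {e : ℕ × ℕ} : e ∈ newE k ↔ e.1 = k ∧ e.2 ∈ nb k ∧ k < e.2 := by
  unfold newE
  rw [List.mem_map]
  constructor
  · rintro ⟨w, hw, rfl⟩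
    rw [List.mem_filter] at hw
    exact ⟨rfl, hw.1, by simpa using hw.2⟩
  · rintro ⟨h1, h2, h3⟩
    exact ⟨e.2, List.mem_filter.2 ⟨h2, by simpa using h3⟩, by rw [← h1]⟩

theorem newE_nodup {k : ℕ} (hk : k < 58) : (newE k).Nodup := by
  unfold newE
  refine List.Nodup.map ?_ ((nb_nodup k hk).filter _)
  intro a b h
  exact (Prod.ext_iff.1 h).2

theorem Inv.step {k : ℕ} (hk : k < 58) {F : List (ℕ × ℕ)} (hF : Inv k F) :
    Inv (k + 1) (restF k F ++ newE k) := by
  refine ⟨?_, ?_⟩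
  · intro e he
    rcases List.mem_append.1 he with he | he
    · unfold restF at he
      rw [List.mem_filter] at he
      obtain ⟨h1, h2⟩ := he
      have h3 : e.2 ≠ k := by simpa using h2
      obtain ⟨a, b, c, d⟩ := hF.mem e h1
      exact ⟨by omega, by omega, c, d⟩
    · obtain ⟨h1, h2, h3⟩ := mem_newE.1 he
      exact ⟨by omega, by omega, by omega, by rw [h1]; exact h2⟩
  · refine List.Nodup.append (hF.nd.filter _) (newE_nodup hk) ?_
    intro e he1 he2
    unfold restF at he1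
    rw [List.mem_filter] at he1
    have h1 := (hF.mem e he1.1).1
    have h2 := (mem_newE.1 he2).1
    omega

theorem step_sound (hK : ECol K) {k : ℕ} (hk : k < 58) {F : List (ℕ × ℕ)} (hF : Inv k F)
    {S : List ℕ} (h : enc (cols K F) ∈ S) :
    enc (cols K (restF k F ++ newE k)) ∈ stepS k F S := by
  unfold stepS
  refine dd_spec _ _ _ (fun y hy => by simp at hy) _ (Or.inl ?_)
  rw [List.mem_flatMap]
  refine ⟨_, h, ?_⟩
  have hdec : dec (enc (cols K F)) F.length = cols K F := by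
    have := dec_enc (cols K F) (fun c hc => by
      unfold cols at hc
      rw [List.mem_map] at hc
      obtain ⟨e, _, rfl⟩ := hc
      exact hK.lt _ _)
    unfold cols at this ⊢
    rwa [List.length_map] at this
  unfold trans
  simp only
  rw [hdec, oldc_cols, restc_cols]
  -- the old edges at `k`
  have hold : ∀ e ∈ F.filter (fun e => e.2 == k), e.2 = k ∧ e.1 ∈ nb k ∧ e.1 < k := by
    intro e he
    rw [List.mem_filter] at he
    have h2 : e.2 = k := by simpa using he.2
    obtain ⟨a, b, c, d⟩ := hF.mem e he.1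
    refine ⟨h2, ?_, a⟩
    have := (nb_lt e.1 c e.2 d).2.2.2
    rwa [h2] at this
  have hnd : (cols K (F.filter (fun e => e.2 == k))).Nodup := by
    unfold cols
    refine List.Nodup.map_on ?_ (hF.nd.filter _)
    intro x hx y hy hxy
    obtain ⟨x1, x2, _⟩ := hold x hx
    obtain ⟨y1, y2, _⟩ := hold y hy
    rw [x1, y1, hK.sym x.1, hK.sym y.1] at hxy
    exact Prod.ext (hK.inj k hk _ x2 _ y2 hxy) (by rw [x1, y1])
  rw [if_pos hnd, List.mem_map]
  refine ⟨cols K (newE k), ?_, ?_⟩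
  · have hl : (newE k).length = (cols K (newE k)).length := by
      unfold cols
      rw [List.length_map]
    rw [hl]
    refine mem_exts _ _ ?_ ?_ ?_
    · intro c hc
      unfold cols at hc
      rw [List.mem_map] at hc
      obtain ⟨e, _, rfl⟩ := hc
      exact hK.lt _ _
    · unfold cols
      refine List.Nodup.map_on ?_ (newE_nodup hk)
      intro x hx y hy hxy
      obtain ⟨x1, x2, _⟩ := mem_newE.1 hx
      obtain ⟨y1, y2, _⟩ := mem_newE.1 hy
      rw [x1, y1] at hxy
      exact Prod.ext (by rw [x1, y1]) (hK.inj k hk _ x2 _ y2 hxy)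
    · intro c hc hc2
      unfold cols at hc hc2
      rw [List.mem_map] at hc hc2
      obtain ⟨x, hx, rfl⟩ := hc
      obtain ⟨y, hy, hxy⟩ := hc2
      obtain ⟨x1, x2, x3⟩ := mem_newE.1 hx
      obtain ⟨y1, y2, y3⟩ := hold y hy
      rw [x1, y1, hK.sym y.1] at hxy
      have := hK.inj k hk _ y2 _ x2 hxy
      omega
  · unfold cols
    rw [List.map_append]

theorem run_sound (hK : ECol K) : ∀ (t k : ℕ) (F : List (ℕ × ℕ)) (S : List ℕ), k + t = 58 →
    Inv k F → enc (cols K F) ∈ S → ∃ x, x ∈ run t k F S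
  | 0, k, F, S, _, _, h => ⟨_, h⟩
  | t + 1, k, F, S, hk, hF, h => by
    unfold run
    exact run_sound hK t (k + 1) _ _ (by omega) (hF.step (by omega)) (step_sound hK (by omega) hF h)

theorem no_ECol (hK : ECol K) : False := by
  obtain ⟨x, hx⟩ := run_sound hK 58 0 [] [0] (by norm_num) ⟨by simp, by simp⟩
    (by simp [cols, enc])
  rw [run_empty] at hx
  simp at hx

theorem nb_iff (u v : Fin 58) : G.Adj u v ↔ v.val ∈ nb u.val := by
  rw [adj_iff]
  unfold adjB
  simp

/-- the graph is not 3-edge-colourable -/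
theorem class2 : ¬ G.lineGraph.Colorable 3 := by
  rintro ⟨c⟩
  classical
  let K : ℕ → ℕ → ℕ := fun u v =>
    if h : ∃ (hu : u < 58) (hv : v < 58), G.Adj ⟨u, hu⟩ ⟨v, hv⟩ then
      (c ⟨s(⟨u, h.choose⟩, ⟨v, h.choose_spec.choose⟩), h.choose_spec.choose_spec⟩).val
    else 0
  have hKeq : ∀ (u v : ℕ) (hu : u < 58) (hv : v < 58) (h : G.Adj ⟨u, hu⟩ ⟨v, hv⟩),
      K u v = (c ⟨s(⟨u, hu⟩, ⟨v, hv⟩), h⟩).val := by
    intro u v hu hv h
    have hh : ∃ (hu : u < 58) (hv : v < 58), G.Adj ⟨u, hu⟩ ⟨v, hv⟩ := ⟨hu, hv, h⟩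
    simp only [K]
    rw [dif_pos hh]
  have hK : ECol K := by
    refine ⟨?_, ?_, ?_⟩
    · intro u v
      by_cases h : ∃ (hu : u < 58) (hv : v < 58), G.Adj ⟨u, hu⟩ ⟨v, hv⟩
      · obtain ⟨hu, hv, h⟩ := h
        rw [hKeq u v hu hv h, hKeq v u hv hu h.symm]
        congr 2
        apply Subtype.ext
        exact Sym2.eq_swap
      · have h' : ¬ ∃ (hv : v < 58) (hu : u < 58), G.Adj ⟨v, hv⟩ ⟨u, hu⟩ :=
          fun ⟨hv, hu, h2⟩ => h ⟨hu, hv, h2.symm⟩
        simp only [K]
        rw [dif_neg h, dif_neg h']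
    · intro u v
      simp only [K]
      split_ifs
      · exact Fin.isLt _
      · norm_num
    · intro k hk v hv w hw heq
      obtain ⟨v1, v2, v3, _⟩ := nb_lt k hk v hv
      obtain ⟨w1, w2, w3, _⟩ := nb_lt k hk w hw
      have hv' : G.Adj ⟨k, hk⟩ ⟨v, v1⟩ := v3
      have hw' : G.Adj ⟨k, hk⟩ ⟨w, w1⟩ := w3
      rw [hKeq k v hk v1 hv', hKeq k w hk w1 hw'] at heq
      by_contra hne
      have hadj : G.lineGraph.Adj ⟨s(⟨k, hk⟩, ⟨v, v1⟩), hv'⟩ ⟨s(⟨k, hk⟩, ⟨w, w1⟩), hw'⟩ := by
        rw [SimpleGraph.lineGraph_adj_iff_exists]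
        refine ⟨?_, ⟨k, hk⟩, by simp, by simp⟩
        intro h
        have h2 : s((⟨k, hk⟩ : Fin 58), ⟨v, v1⟩) = s(⟨k, hk⟩, ⟨w, w1⟩) := congrArg Subtype.val h
        rw [Sym2.congr_right] at h2
        exact hne (Fin.mk.inj h2)
      exact c.valid hadj (Fin.ext heq)
  exact no_ECol hK

end Pool.Agent.Helper517.HS
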