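import Mathlib

/-!
In a cubic graph without 4-cycles and 6-cycles no three perfect matchings leave exactly three edges
uncovered.
-/

set_option autoImplicit false

namespace Pool.Agent.Helper517.HS

variable {V : Type} [Fintype V] [DecidableEq V]

theorem partner {G : SimpleGraph V} {M : G.Subgraph} (hM : M.IsPerfectMatching) :
    ∃ p : V → V, ∀ v w, M.Adj v w ↔ p v = w := by
  have h : ∀ v, ∃! w, M.Adj v w := fun v => hM.1 (hM.2 v)
  choose p hp hu using h
  refine ⟨p, fun v w => ⟨fun h => (hu v w h).symm, ?_⟩⟩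
  rintro rfl
  exact hp v

/-- multiplicity of the pair `v w` -/
def mu (p₁ p₂ p₃ : V → V) (v w : V) : ℕ :=
  (if p₁ v = w then 1 else 0) + (if p₂ v = w then 1 else 0) + (if p₃ v = w then 1 else 0)

theorem nbrs {G : SimpleGraph V} [DecidableRel G.Adj] (hdeg : ∀ v, G.degree v = 3) {v w : V}
    (h : G.Adj v w) : ∃ x y, w ≠ x ∧ w ≠ y ∧ x ≠ y ∧ G.Adj v x ∧ G.Adj v y ∧
      ∀ u, G.Adj v u → u = w ∨ u = x ∨ u = y := by
  have h1 : (G.neighborFinset v).card = 3 := hdeg v
  have hw : w ∈ G.neighborFinset v := by rwa [SimpleGraph.mem_neighborFinset]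
  have h2 : ((G.neighborFinset v).erase w).card = 2 := by
    rw [Finset.card_erase_of_mem hw, h1]
  obtain ⟨x, y, hxy, he⟩ := Finset.card_eq_two.1 h2
  have hx : x ∈ (G.neighborFinset v).erase w := by rw [he]; simp
  have hy : y ∈ (G.neighborFinset v).erase w := by rw [he]; simp
  rw [Finset.mem_erase, SimpleGraph.mem_neighborFinset] at hx hy
  refine ⟨x, y, hx.1.symm, hy.1.symm, hxy, hx.2, hy.2, ?_⟩
  intro u hu
  by_cases huw : u = w
  · exact Or.inl huw
  · right
    have : u ∈ (G.neighborFinset v).erase w := by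
      rw [Finset.mem_erase, SimpleGraph.mem_neighborFinset]
      exact ⟨huw, hu⟩
    rw [he] at this
    simpa using this

theorem core {G : SimpleGraph V} [DecidableRel G.Adj] (hdeg : ∀ v, G.degree v = 3)
    (h4 : ∀ a b c d, G.Adj a b → G.Adj b c → G.Adj c d → G.Adj d a → a = c ∨ b = d)
    (h6 : ∀ a b c d e f, G.Adj a b → G.Adj b c → G.Adj c d → G.Adj d e → G.Adj e f → G.Adj f a →
      ¬ [a, b, c, d, e, f].Nodup)
    (M₁ M₂ M₃ : G.Subgraph) (hM₁ : M₁.IsPerfectMatching) (hM₂ : M₂.IsPerfectMatching)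
    (hM₃ : M₃.IsPerfectMatching)
    (hE : (G.edgeSet \ (M₁.edgeSet ∪ M₂.edgeSet ∪ M₃.edgeSet)).ncard = 3) : False := by
  obtain ⟨p₁, hp₁⟩ := partner hM₁
  obtain ⟨p₂, hp₂⟩ := partner hM₂
  obtain ⟨p₃, hp₃⟩ := partner hM₃
  set E0 := G.edgeSet \ (M₁.edgeSet ∪ M₂.edgeSet ∪ M₃.edgeSet) with hE0
  have hfin : E0.Finite := Set.finite_of_ncard_ne_zero (by rw [hE]; norm_num)
  let m : V → V → ℕ := mu p₁ p₂ p₃
  have hm : ∀ v w, m v w = (if p₁ v = w then 1 else 0) + (if p₂ v = w then 1 else 0)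
    + (if p₃ v = w then 1 else 0) := fun _ _ => rfl
  have s1 : ∀ v w, p₁ v = w ↔ p₁ w = v := fun v w => by
    rw [← hp₁, ← hp₁]; exact ⟨fun h => h.symm, fun h => h.symm⟩
  have s2 : ∀ v w, p₂ v = w ↔ p₂ w = v := fun v w => by
    rw [← hp₂, ← hp₂]; exact ⟨fun h => h.symm, fun h => h.symm⟩
  have s3 : ∀ v w, p₃ v = w ↔ p₃ w = v := fun v w => by
    rw [← hp₃, ← hp₃]; exact ⟨fun h => h.symm, fun h => h.symm⟩
  have msymm : ∀ v w, m v w = m w v := by
    intro v w
    rw [hm, hm]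
    simp only [s1 v w, s2 v w, s3 v w]
  have a1 : ∀ v, G.Adj v (p₁ v) := fun v => M₁.adj_sub ((hp₁ v _).2 rfl)
  have a2 : ∀ v, G.Adj v (p₂ v) := fun v => M₂.adj_sub ((hp₂ v _).2 rfl)
  have a3 : ∀ v, G.Adj v (p₃ v) := fun v => M₃.adj_sub ((hp₃ v _).2 rfl)
  have memE : ∀ v w, s(v, w) ∈ E0 ↔ G.Adj v w ∧ m v w = 0 := by
    intro v w
    rw [hE0, Set.mem_diff, Set.mem_union, Set.mem_union, SimpleGraph.mem_edgeSet,
      SimpleGraph.Subgraph.mem_edgeSet, SimpleGraph.Subgraph.mem_edgeSet,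
      SimpleGraph.Subgraph.mem_edgeSet, hp₁, hp₂, hp₃, hm]
    constructor
    · rintro ⟨h1, h2⟩
      refine ⟨h1, ?_⟩
      simp only [not_or] at h2
      rw [if_neg h2.1.1, if_neg h2.1.2, if_neg h2.2]
    · rintro ⟨h1, h2⟩
      refine ⟨h1, ?_⟩
      rintro ((h | h) | h)
      · rw [if_pos h] at h2; omega
      · rw [if_pos h] at h2; omega
      · rw [if_pos h] at h2; omega
  have hsum : ∀ v w x y, w ≠ x → w ≠ y → x ≠ y → (∀ u, G.Adj v u → u = w ∨ u = x ∨ u = y) →
      m v w + m v x + m v y = 3 := by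
    intro v w x y hwx hwy hxy hall
    have key : ∀ q : V, (q = w ∨ q = x ∨ q = y) →
        (if q = w then 1 else 0) + (if q = x then 1 else 0) + (if q = y then 1 else 0) = 1 := by
      rintro q (rfl | rfl | rfl)
      · rw [if_pos rfl, if_neg hwx, if_neg hwy]
      · rw [if_neg hwx.symm, if_pos rfl, if_neg hxy]
      · rw [if_neg hwy.symm, if_neg hxy.symm, if_pos rfl]
    have k1 := key _ (hall _ (a1 v))
    have k2 := key _ (hall _ (a2 v))
    have k3 := key _ (hall _ (a3 v))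
    rw [hm, hm, hm]
    omega
  -- four different uncovered edges are impossible
  have four : ∀ e1 e2 e3 e4 : Sym2 V, e1 ∈ E0 → e2 ∈ E0 → e3 ∈ E0 → e4 ∈ E0 → e1 ≠ e2 → e1 ≠ e3 →
      e1 ≠ e4 → e2 ≠ e3 → e2 ≠ e4 → e3 ≠ e4 → False := by
    intro e1 e2 e3 e4 m1 m2 m3 m4 n12 n13 n14 n23 n24 n34
    have hsub : (({e1, e2, e3, e4} : Finset (Sym2 V)) : Set (Sym2 V)) ⊆ E0 := by
      intro e he
      simp only [Finset.coe_insert, Finset.coe_singleton, Set.mem_insert_iff,
        Set.mem_singleton_iff] at he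
      rcases he with rfl | rfl | rfl | rfl
      · exact m1
      · exact m2
      · exact m3
      · exact m4
    have h := Set.ncard_le_ncard hsub hfin
    rw [Set.ncard_coe_finset, hE, Finset.card_insert_of_notMem, Finset.card_insert_of_notMem,
      Finset.card_insert_of_notMem, Finset.card_singleton] at h
    · omega
    · simpa using n34
    · simp only [Finset.mem_insert, Finset.mem_singleton, not_or]
      exact ⟨n23, n24⟩
    · simp only [Finset.mem_insert, Finset.mem_singleton, not_or]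
      exact ⟨n12, n13, n14⟩
  -- structure at an end of an uncovered edge
  have L1 : ∀ v w, G.Adj v w → m v w = 0 → (∃ t, G.Adj v t ∧ m v t = 2) ∧
      ∀ u, G.Adj v u → m v u = 0 → u = w := by
    intro v w hvw h0
    obtain ⟨x, y, hwx, hwy, hxy, hx, hy, hall⟩ := nbrs hdeg hvw
    have hs := hsum v w x y hwx hwy hxy hall
    -- no edge of multiplicity 3
    have no3 : ∀ x y, G.Adj v x → G.Adj v y → w ≠ x → w ≠ y → x ≠ y → m v x = 3 → m v y = 0 →
        False := by
      intro x y hx hy hwx hwy hxy h3 hy0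
      obtain ⟨x', x'', n1, n2, n3, ax', ax'', hall'⟩ := nbrs hdeg hx.symm
      have hs' := hsum x v x' x'' n1 n2 n3 hall'
      have h3' : m x v = 3 := by rw [msymm]; exact h3
      have vw : v ≠ w := hvw.ne
      have vx : v ≠ x := hx.ne
      refine four s(v, w) s(v, y) s(x, x') s(x, x'') ((memE _ _).2 ⟨hvw, h0⟩)
        ((memE _ _).2 ⟨hy, hy0⟩) ((memE _ _).2 ⟨ax', by omega⟩) ((memE _ _).2 ⟨ax'', by omega⟩)
        ?_ ?_ ?_ ?_ ?_ ?_
      · intro h
        rw [Sym2.congr_right] at h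
        exact hwy h
      · intro h
        rw [Sym2.eq_iff] at h
        rcases h with ⟨h, _⟩ | ⟨h, _⟩
        · exact vx h
        · exact n1 h
      · intro h
        rw [Sym2.eq_iff] at h
        rcases h with ⟨h, _⟩ | ⟨h, _⟩
        · exact vx h
        · exact n2 h
      · intro h
        rw [Sym2.eq_iff] at h
        rcases h with ⟨h, _⟩ | ⟨h, _⟩
        · exact vx h
        · exact n1 h
      · intro h
        rw [Sym2.eq_iff] at h
        rcases h with ⟨h, _⟩ | ⟨h, _⟩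
        · exact vx h
        · exact n2 h
      · intro h
        rw [Sym2.congr_right] at h
        exact n3 h
    have c1 : m v x ≠ 3 := fun h => no3 x y hx hy hwx hwy hxy h (by omega)
    have c2 : m v y ≠ 3 := fun h => no3 y x hy hx hwy hwx hxy.symm h (by omega)
    have hx0 : m v x ≠ 0 := by omega
    have hy0 : m v y ≠ 0 := by omega
    refine ⟨?_, ?_⟩
    · rcases (show m v x = 2 ∨ m v y = 2 by omega) with h | h
      · exact ⟨x, hx, h⟩
      · exact ⟨y, hy, h⟩
    · intro u hu hu0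
      rcases hall u hu with h | h | h
      · exact h
      · rw [h] at hu0; exact absurd hu0 hx0
      · rw [h] at hu0; exact absurd hu0 hy0
  have L2 : ∀ v t, G.Adj v t → m v t = 2 → (∃ w, G.Adj v w ∧ m v w = 0) ∧
      ∀ u, G.Adj v u → m v u = 2 → u = t := by
    intro v t hvt h2
    obtain ⟨x, y, hwx, hwy, hxy, hx, hy, hall⟩ := nbrs hdeg hvt
    have hs := hsum v t x y hwx hwy hxy hall
    refine ⟨?_, ?_⟩
    · rcases (show m v x = 0 ∨ m v y = 0 by omega) with h | h
      · exact ⟨x, hx, h⟩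
      · exact ⟨y, hy, h⟩
    · intro u hu hu2
      rcases hall u hu with h | h | h
      · exact h
      · rw [h] at hu2; omega
      · rw [h] at hu2; omega
  -- the walk
  have hne : E0.Nonempty := by
    rw [← Set.ncard_pos hfin, hE]
    norm_num
  obtain ⟨e, he⟩ := hne
  induction e using Sym2.ind with
  | _ a b =>
  obtain ⟨hab, mab⟩ := (memE a b).1 he
  obtain ⟨⟨a', haa', maa'⟩, ua⟩ := L1 a b hab mab
  have ub := (L1 b a hab.symm (by rw [msymm]; exact mab)).2
  have ta := (L2 a a' haa' maa').2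
  obtain ⟨⟨b', ha'b', ma'b'⟩, ta'⟩ := L2 a' a haa'.symm (by rw [msymm]; exact maa')
  have ua' := (L1 a' b' ha'b' ma'b').2
  obtain ⟨⟨a'', hb'a'', mb'a''⟩, ub'⟩ := L1 b' a' ha'b'.symm (by rw [msymm]; exact ma'b')
  have tb' := (L2 b' a'' hb'a'' mb'a'').2
  obtain ⟨⟨b'', ha''b'', ma''b''⟩, ta''⟩ := L2 a'' b' hb'a''.symm (by rw [msymm]; exact mb'a'')
  obtain ⟨⟨a3', hb''a3, mb''a3⟩, ub''⟩ := L1 b'' a'' ha''b''.symm (by rw [msymm]; exact ma''b'')
  obtain ⟨⟨b3', ha3b3, ma3b3⟩, ta3⟩ := L2 a3' b'' hb''a3.symm (by rw [msymm]; exact mb''a3)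
  have nab : a ≠ b := hab.ne
  have naa' : a ≠ a' := haa'.ne
  have na'b' : a' ≠ b' := ha'b'.ne
  have nb'a'' : b' ≠ a'' := hb'a''.ne
  have na''b'' : a'' ≠ b'' := ha''b''.ne
  have na'b : a' ≠ b := by
    rintro rfl
    omega
  have nb'a : b' ≠ a := by
    rintro rfl
    rw [msymm] at ma'b'
    omega
  have nb'b : b' ≠ b := by
    intro h
    have := ub a' (by rw [← h]; exact ha'b'.symm) (by rw [← h, msymm]; exact ma'b')
    exact naa' this.symm
  have na''a' : a'' ≠ a' := by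
    intro h
    rw [h, msymm] at mb'a''
    omega
  have na''a : a'' ≠ a := by
    intro h
    have := ta b' (by rw [← h]; exact hb'a''.symm) (by rw [← h, msymm]; exact mb'a'')
    exact na'b' this.symm
  have na''b : a'' ≠ b := by
    intro h
    rcases h4 b a a' b' hab.symm haa' ha'b' (by rw [← h]; exact hb'a'') with h' | h'
    · exact na'b h'.symm
    · exact nb'a h'.symm
  have nb''b' : b'' ≠ b' := by
    intro h
    rw [h, msymm] at ma''b''
    omega
  have nb''a' : b'' ≠ a' := by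
    intro h
    have := ua' a'' (by rw [← h]; exact ha''b''.symm) (by rw [← h, msymm]; exact ma''b'')
    exact nb'a'' this.symm
  have nb''a : b'' ≠ a := by
    intro h
    have := ua a'' (by rw [← h]; exact ha''b''.symm) (by rw [← h, msymm]; exact ma''b'')
    exact na''b this
  have nb''b : b'' ≠ b := by
    intro h
    have := ub a'' (by rw [← h]; exact ha''b''.symm) (by rw [← h, msymm]; exact ma''b'')
    exact na''a this
  -- the end of the walk
  have h3mem : s(a3', b3') = s(a, b) ∨ s(a3', b3') = s(a', b') ∨ s(a3', b3') = s(a'', b'') := by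
    by_contra hc
    simp only [not_or] at hc
    refine four s(a, b) s(a', b') s(a'', b'') s(a3', b3') he ((memE _ _).2 ⟨ha'b', ma'b'⟩)
      ((memE _ _).2 ⟨ha''b'', ma''b''⟩) ((memE _ _).2 ⟨ha3b3, ma3b3⟩) ?_ ?_ (Ne.symm hc.1) ?_
      (Ne.symm hc.2.1) (Ne.symm hc.2.2)
    · intro h
      rw [Sym2.eq_iff] at h
      rcases h with ⟨h, _⟩ | ⟨h, _⟩
      · exact naa' h
      · exact nb'a h.symm
    · intro h
      rw [Sym2.eq_iff] at h
      rcases h with ⟨h, _⟩ | ⟨h, _⟩
      · exact na''a h.symm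
      · exact nb''a h.symm
    · intro h
      rw [Sym2.eq_iff] at h
      rcases h with ⟨h, _⟩ | ⟨h, _⟩
      · exact na''a' h.symm
      · exact nb''a' h.symm
  have hmem : a3' = a ∨ a3' = b ∨ a3' = a' ∨ a3' = b' ∨ a3' = a'' ∨ a3' = b'' := by
    rcases h3mem with h | h | h
    · rw [Sym2.eq_iff] at h
      rcases h with ⟨h, _⟩ | ⟨h, _⟩
      · exact Or.inl h
      · exact Or.inr (Or.inl h)
    · rw [Sym2.eq_iff] at h
      rcases h with ⟨h, _⟩ | ⟨h, _⟩
      · exact Or.inr (Or.inr (Or.inl h))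
      · exact Or.inr (Or.inr (Or.inr (Or.inl h)))
    · rw [Sym2.eq_iff] at h
      rcases h with ⟨h, _⟩ | ⟨h, _⟩
      · exact Or.inr (Or.inr (Or.inr (Or.inr (Or.inl h))))
      · exact Or.inr (Or.inr (Or.inr (Or.inr (Or.inr h))))
  have mb3 : m a3' b'' = 2 := by rw [msymm]; exact mb''a3
  rcases hmem with h | h | h | h | h | h
  · rw [h] at mb3 hb''a3
    exact nb''a' (ta b'' hb''a3.symm mb3)
  · rw [h] at hb''a3
    refine h6 b a a' b' a'' b'' hab.symm haa' ha'b' hb'a'' ha''b'' hb''a3 ?_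
    simp only [List.nodup_cons, List.mem_cons, List.not_mem_nil, or_false, not_or, not_false_eq_true,
      List.nodup_nil, and_true]
    exact ⟨⟨nab.symm, na'b.symm, nb'b.symm, na''b.symm, nb''b.symm⟩,
      ⟨naa', nb'a.symm, na''a.symm, nb''a.symm⟩, ⟨na'b', na''a'.symm, nb''a'.symm⟩,
      ⟨nb'a'', nb''b'.symm⟩, na''b''⟩
  · rw [h] at mb3 hb''a3
    exact nb''a (ta' b'' hb''a3.symm mb3)
  · rw [h] at mb3 hb''a3
    exact na''b'' (tb' b'' hb''a3.symm mb3).symm
  · rw [h, msymm] at mb3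
    rw [msymm] at mb3
    omega
  · rw [h] at hb''a3
    exact hb''a3.ne rfl

end Pool.Agent.Helper517.HS
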