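import Pool.Agent.Helper517.HS.Class2

/-!
`G` has no 4-cycle and no 6-cycle.
-/

set_option autoImplicit false
set_option maxRecDepth 100000

namespace Pool.Agent.Helper517.HS

def all2 (u : ℕ) (f : ℕ → Bool) : Bool := (nb u).all f

theorem c4B : (List.range 58).all (fun a => all2 a (fun b => all2 b (fun c => all2 c (fun d =>
    (!(adjB d a)) || (a == c) || (b == d))))) = true := by decide +kernel

theorem c6B : (List.range 58).all (fun a => all2 a (fun b => all2 b (fun c => (a == c) ||
    all2 c (fun d => (b == d) || all2 d (fun e => (c == e) || all2 e (fun f =>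
    (!(adjB f a)) || (d == f) || (e == a) || (f == b) || (a == d) || (b == e) || (c == f)
    )))))) = true := by decide +kernel

lemma all2_iff (u : ℕ) (f : ℕ → Bool) : all2 u f = true ↔ ∀ v ∈ nb u, f v = true := by
  unfold all2; rw [List.all_eq_true]

theorem G_c4 : ∀ a b c d : Fin 58, G.Adj a b → G.Adj b c → G.Adj c d → G.Adj d a →
    a = c ∨ b = d := by
  intro a b c d h1 h2 h3 h4
  have h := c4B
  rw [List.all_eq_true] at h
  have h := h a.val (List.mem_range.2 a.isLt)
  rw [all2_iff] at h
  have h := h b.val ((nb_iff a b).1 h1)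
  rw [all2_iff] at h
  have h := h c.val ((nb_iff b c).1 h2)
  rw [all2_iff] at h
  have h := h d.val ((nb_iff c d).1 h3)
  have h4' : adjB d.val a.val = true := h4
  rw [h4'] at h
  simp only [Bool.not_true, Bool.false_or, Bool.or_eq_true, beq_iff_eq] at h
  rcases h with h | h
  · exact Or.inl (Fin.ext h)
  · exact Or.inr (Fin.ext h)

theorem G_c6 : ∀ a b c d e f : Fin 58, G.Adj a b → G.Adj b c → G.Adj c d → G.Adj d e →
    G.Adj e f → G.Adj f a → ¬ [a, b, c, d, e, f].Nodup := by
  intro a b c d e f h1 h2 h3 h4 h5 h6 hnd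
  have h := c6B
  rw [List.all_eq_true] at h
  have h := h a.val (List.mem_range.2 a.isLt)
  rw [all2_iff] at h
  have h := h b.val ((nb_iff a b).1 h1)
  rw [all2_iff] at h
  have h := h c.val ((nb_iff b c).1 h2)
  have h6' : adjB f.val a.val = true := h6
  simp only [List.nodup_cons, List.mem_cons, List.not_mem_nil, or_false, not_or] at hnd
  obtain ⟨⟨ab, ac, ad, ae, af⟩, ⟨bc, bd, be, bf⟩, ⟨cd, ce, cf⟩, ⟨de, df⟩, ef, _⟩ := hnd
  have ne : ∀ {x y : Fin 58}, x ≠ y → (x.val == y.val) = false := by
    intro x y hxy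
    rw [beq_eq_false_iff_ne]
    exact fun hh => hxy (Fin.ext hh)
  rw [ne ac, Bool.false_or, all2_iff] at h
  have h := h d.val ((nb_iff c d).1 h3)
  rw [ne bd, Bool.false_or, all2_iff] at h
  have h := h e.val ((nb_iff d e).1 h4)
  rw [ne ce, Bool.false_or, all2_iff] at h
  have h := h f.val ((nb_iff e f).1 h5)
  rw [h6', ne df, ne (Ne.symm ae), ne (Ne.symm bf), ne ad, ne be, ne cf] at h
  exact absurd h (by decide)

end Pool.Agent.Helper517.HS
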