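import Pool.Agent.Helper517.HS.Data

/-!
The graph, its regularity, and the verification that it is not 3-edge-colourable.
-/

set_option autoImplicit false
set_option maxRecDepth 100000

namespace Pool.Agent.Helper517.HS

def adjB (u v : ℕ) : Bool := (nb u).elem v

theorem symB : ∀ u < 58, ∀ v < 58, adjB u v = true → adjB v u = true := by decide +kernel

theorem irrB : ∀ u < 58, adjB u u = false := by decide +kernel

/-- the graph -/
def G : SimpleGraph (Fin 58) where
  Adj u v := adjB u.val v.val = true
  symm := ⟨fun u v h => symB u.val u.isLt v.val v.isLt h⟩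
  loopless := ⟨fun u h => by
    have := irrB u.val u.isLt
    rw [this] at h
    exact absurd h (by decide)⟩

instance : DecidableRel G.Adj := fun u v => inferInstanceAs (Decidable (adjB u.val v.val = true))

theorem adj_iff (u v : Fin 58) : G.Adj u v ↔ adjB u.val v.val = true := Iff.rfl

theorem deg3 : ∀ v : Fin 58, G.degree v = 3 := by decide +kernel

theorem nb_lt : ∀ u < 58, ∀ v ∈ nb u, v < 58 ∧ v ≠ u ∧ adjB u v = true ∧ u ∈ nb v := by
  decide +kernel

theorem nb_nodup : ∀ u < 58, (nb u).Nodup := by decide +kernel

/-! ### encoding of states -/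

def enc : List ℕ → ℕ
  | [] => 0
  | c :: l => c + 4 * enc l

def dec (n : ℕ) : ℕ → List ℕ
  | 0 => []
  | w + 1 => n % 4 :: dec (n / 4) w

theorem dec_enc : ∀ (l : List ℕ), (∀ c ∈ l, c < 3) → dec (enc l) l.length = l
  | [], _ => rfl
  | c :: l, h => by
    have hc : c < 3 := h c (by simp)
    have h1 : (c + 4 * enc l) % 4 = c := by omega
    have h2 : (c + 4 * enc l) / 4 = enc l := by omega
    simp only [enc, List.length_cons, dec, h1, h2]
    rw [dec_enc l (fun x hx => h x (by simp [hx]))]

/-- remove duplicates with a bit mask -/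
def dd : List ℕ → List ℕ → ℕ → List ℕ
  | [], acc, _ => acc
  | x :: l, acc, bm => if Nat.testBit bm x then dd l acc bm else dd l (x :: acc) (bm ||| 2 ^ x)

theorem dd_spec : ∀ (l acc : List ℕ) (bm : ℕ), (∀ y, Nat.testBit bm y = true → y ∈ acc) →
    ∀ x, (x ∈ l ∨ x ∈ acc) → x ∈ dd l acc bm
  | [], acc, bm, _, x, hx => by
    rcases hx with hx | hx
    · exact absurd hx (by simp)
    · exact hx
  | a :: l, acc, bm, hbm, x, hx => by
    unfold dd
    split_ifs with h
    · refine dd_spec l acc bm hbm x ?_
      rcases hx with hx | hx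
      · rcases List.mem_cons.1 hx with rfl | hx
        · exact Or.inr (hbm _ h)
        · exact Or.inl hx
      · exact Or.inr hx
    · refine dd_spec l (a :: acc) (bm ||| 2 ^ a) ?_ x ?_
      · intro y hy
        rw [Nat.testBit_or, Nat.testBit_two_pow, Bool.or_eq_true, decide_eq_true_eq] at hy
        rcases hy with hy | hy
        · exact List.mem_cons_of_mem _ (hbm y hy)
        · rw [hy]; exact List.mem_cons_self
      · rcases hx with hx | hx
        · rcases List.mem_cons.1 hx with rfl | hx
          · exact Or.inr List.mem_cons_self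
          · exact Or.inl hx
        · exact Or.inr (List.mem_cons_of_mem _ hx)

/-! ### the dynamic programme: frontier edges and their colours -/

/-- extensions by `m` new colours, all distinct and different from those in `oc` -/
def exts (oc : List ℕ) : ℕ → List (List ℕ)
  | 0 => [[]]
  | m + 1 => [0, 1, 2].flatMap (fun c =>
      if oc.elem c then [] else (exts (c :: oc) m).map (fun l => c :: l))

/-- colours at the positions of `F` with end `k` -/
def oldc (k : ℕ) : List (ℕ × ℕ) → List ℕ → List ℕ
  | e :: F, c :: l => if e.2 = k then c :: oldc k F l else oldc k F l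
  | _, _ => []

def restc (k : ℕ) : List (ℕ × ℕ) → List ℕ → List ℕ
  | e :: F, c :: l => if e.2 = k then restc k F l else c :: restc k F l
  | _, _ => []

def restF (k : ℕ) (F : List (ℕ × ℕ)) : List (ℕ × ℕ) := F.filter (fun e => !(e.2 == k))

def newE (k : ℕ) : List (ℕ × ℕ) := ((nb k).filter (fun w => Nat.blt k w)).map (fun w => (k, w))

def trans (k : ℕ) (F : List (ℕ × ℕ)) (m : ℕ) (n : ℕ) : List ℕ :=
  let st := dec n F.length
  let oc := oldc k F st
  if oc.Nodup then (exts oc m).map (fun nc => enc (restc k F st ++ nc)) else []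

def stepS (k : ℕ) (F : List (ℕ × ℕ)) (S : List ℕ) : List ℕ :=
  dd (S.flatMap (trans k F (newE k).length)) [] 0

def run : ℕ → ℕ → List (ℕ × ℕ) → List ℕ → List ℕ
  | 0, _, _, S => S
  | t + 1, k, F, S => run t (k + 1) (restF k F ++ newE k) (stepS k F S)

theorem run_empty : run 58 0 [] [0] = [] := by decide +kernel

end Pool.Agent.Helper517.HS
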