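import Pool.Agent.Helper517.HS.Graph

/-!
Each vertex-deleted subgraph of `G` is Hamiltonian.
-/

set_option autoImplicit false
set_option maxRecDepth 100000

namespace Pool.Agent.Helper517.HS

/-- checks that `l` continues a path from `prev`, avoiding the vertices in the bit mask `seen`,
and that the last vertex is adjacent to `st` -/
def go (st prev seen : ℕ) : List ℕ → Bool
  | [] => adjB st prev
  | x :: l => Nat.blt x 58 && adjB prev x && !(Nat.testBit seen x) && go st x (seen ||| 2 ^ x) l

def chk (v : ℕ) : List ℕ → Bool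
  | [] => false
  | x :: l => Nat.blt x 58 && !(x == v) && (l.length == 56) && go x x (2 ^ v ||| 2 ^ x) l

def chkAll : ℕ → List (List ℕ) → Bool
  | _, [] => true
  | w, l :: ls => chk w l && chkAll (w + 1) ls

theorem chkA : chkAll 0 CY = true := by decide +kernel
theorem CY_length : CY.length = 58 := by decide +kernel

lemma chkAll_spec : ∀ (ls : List (List ℕ)) (w : ℕ), chkAll w ls = true →
    ∀ k, k < ls.length → ∃ l, chk (w + k) l = true
  | [], _, _, k, hk => by simp at hk
  | l :: ls, w, h, k, hk => by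
    unfold chkAll at h
    rw [Bool.and_eq_true] at h
    obtain ⟨h1, h2⟩ := h
    cases k with
    | zero => exact ⟨_, h1⟩
    | succ k =>
      obtain ⟨l', hl'⟩ := chkAll_spec ls (w + 1) h2 k (by simpa using hk)
      exact ⟨l', by rw [show w + (k + 1) = w + 1 + k by omega]; exact hl'⟩

lemma exists_chk (v : ℕ) (hv : v < 58) : ∃ l, chk v l = true := by
  have h0 := chkAll_spec CY 0 chkA
  rw [CY_length] at h0
  have := h0 v hv
  rwa [Nat.zero_add] at this

lemma walk_of_go (v : Fin 58) (st : ℕ) : ∀ (l : List ℕ) (prev seen : ℕ) (hp : prev < 58)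
    (hpv : (⟨prev, hp⟩ : Fin 58) ∈ ({w | w ≠ v} : Set (Fin 58))),
    Nat.testBit seen v.val = true → Nat.testBit seen prev = true → go st prev seen l = true →
    ∃ (b : ({w | w ≠ v} : Set (Fin 58)))
      (p : (G.induce ({w | w ≠ v} : Set (Fin 58))).Walk ⟨⟨prev, hp⟩, hpv⟩ b),
      p.support.length = l.length + 1 ∧ p.support.Nodup ∧
      (∀ x ∈ p.support, x ≠ ⟨⟨prev, hp⟩, hpv⟩ → Nat.testBit seen x.val.val = false) ∧
      adjB st b.val.val = true
  | [], prev, seen, hp, hpv, _, _, hgo => by
    refine ⟨_, SimpleGraph.Walk.nil, by simp, by simp, ?_, ?_⟩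
    · intro x hx hne
      simp at hx
      exact absurd hx hne
    · exact hgo
  | x :: l, prev, seen, hp, hpv, hv, hpr, hgo => by
    unfold go at hgo
    rw [Bool.and_eq_true, Bool.and_eq_true, Bool.and_eq_true] at hgo
    obtain ⟨⟨⟨hx1, hx2⟩, hx3⟩, hx4⟩ := hgo
    have hx : x < 58 := by simpa using hx1
    have hs : Nat.testBit seen x = false := by simpa using hx3
    have hxv : (⟨x, hx⟩ : Fin 58) ∈ ({w | w ≠ v} : Set (Fin 58)) := by
      intro h
      rw [← h] at hv
      simp only at hv
      rw [hs] at hv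
      exact absurd hv (by decide)
    have hb : ∀ y, Nat.testBit (seen ||| 2 ^ x) y = (Nat.testBit seen y || decide (x = y)) := by
      intro y
      rw [Nat.testBit_or, Nat.testBit_two_pow]
    obtain ⟨b, p, hp1, hp2, hp3, hp4⟩ := walk_of_go v st l x (seen ||| 2 ^ x) hx hxv
      (by rw [hb, hv, Bool.true_or]) (by rw [hb]; simp) hx4
    have hadj : (G.induce ({w | w ≠ v} : Set (Fin 58))).Adj ⟨⟨prev, hp⟩, hpv⟩ ⟨⟨x, hx⟩, hxv⟩ := hx2
    have hfalse : ∀ y ∈ p.support, Nat.testBit seen y.val.val = false := by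
      intro y hy
      by_cases hyx : y = ⟨⟨x, hx⟩, hxv⟩
      · subst hyx; exact hs
      · have := hp3 y hy hyx
        rw [hb, Bool.or_eq_false_iff] at this
        exact this.1
    refine ⟨b, SimpleGraph.Walk.cons hadj p, ?_, ?_, ?_, hp4⟩
    · rw [SimpleGraph.Walk.support_cons, List.length_cons, List.length_cons, hp1]
    · rw [SimpleGraph.Walk.support_cons, List.nodup_cons]
      refine ⟨?_, hp2⟩
      intro hmem
      have := hfalse _ hmem
      simp only at this
      rw [hpr] at this
      exact absurd this (by decide)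
    · intro y hy hne
      rw [SimpleGraph.Walk.support_cons, List.mem_cons] at hy
      rcases hy with hy | hy
      · exact absurd hy hne
      · exact hfalse y hy

theorem G_del (v : Fin 58) [Fintype ({w | w ≠ v} : Set (Fin 58))]
    [DecidableEq ({w | w ≠ v} : Set (Fin 58))] :
    (G.induce ({w | w ≠ v} : Set (Fin 58))).IsHamiltonian := by
  intro _
  obtain ⟨l, hl⟩ := exists_chk v.val v.isLt
  cases l with
  | nil => simp [chk] at hl
  | cons x l =>
    unfold chk at hl
    rw [Bool.and_eq_true, Bool.and_eq_true, Bool.and_eq_true] at hl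
    obtain ⟨⟨⟨h1, h2⟩, h3⟩, h4⟩ := hl
    have hx : x < 58 := by simpa using h1
    have hxv : x ≠ v.val := by simpa using h2
    have hlen : l.length = 56 := by simpa using h3
    have hmem : (⟨x, hx⟩ : Fin 58) ∈ ({w | w ≠ v} : Set (Fin 58)) := by
      intro h
      apply hxv
      rw [← h]
    have hb : ∀ y, Nat.testBit (2 ^ v.val ||| 2 ^ x) y = (decide (v.val = y) || decide (x = y)) := by
      intro y
      rw [Nat.testBit_or, Nat.testBit_two_pow, Nat.testBit_two_pow]
    obtain ⟨b, p, hp1, hp2, _, hp4⟩ := walk_of_go v x l x (2 ^ v.val ||| 2 ^ x) hx hmem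
      (by rw [hb]; simp) (by rw [hb]; simp) h4
    have hpp : p.IsPath := SimpleGraph.Walk.IsPath.mk' hp2
    have hadj : (G.induce ({w | w ≠ v} : Set (Fin 58))).Adj ⟨⟨x, hx⟩, hmem⟩ b := hp4
    have hplen : p.length = 56 := by
      rw [SimpleGraph.Walk.length_support, hlen] at hp1
      omega
    refine ⟨b, SimpleGraph.Walk.cons hadj.symm p, ?_⟩
    rw [SimpleGraph.Walk.isHamiltonianCycle_iff_isCycle_and_length_eq]
    refine ⟨?_, ?_⟩
    · rw [SimpleGraph.Walk.cons_isCycle_iff]
      refine ⟨hpp, ?_⟩
      intro hmem'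
      rw [Sym2.eq_swap] at hmem'
      have := hpp.length_eq_one_of_mem_edges hmem'
      omega
    · rw [SimpleGraph.Walk.length_cons, hplen]
      have : Fintype.card ({w | w ≠ v} : Set (Fin 58)) = 57 := by
        have hc : Nat.card ({w | w ≠ v} : Set (Fin 58)) = 57 := by
          rw [Nat.card_coe_set_eq]
          have : ({w | w ≠ v} : Set (Fin 58)) = {v}ᶜ := by ext; simp
          rw [this, Set.ncard_compl]
          simp
        rwa [Nat.card_eq_fintype_card] at hc
      rw [this]

end Pool.Agent.Helper517.HS
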