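import Mathlib

/-!
A cubic Hamiltonian graph on 58 vertices is 3-edge-colourable.
-/

set_option autoImplicit false

namespace Pool.Agent.Helper517.HS

theorem colorable_of_ham {V : Type} [Fintype V] [DecidableEq V] (G : SimpleGraph V)
    [DecidableRel G.Adj] (hcard : Fintype.card V = 58) (hdeg : ∀ v, G.degree v = 3)
    (hH : G.IsHamiltonian) : G.lineGraph.Colorable 3 := by
  classical
  obtain ⟨a, p, hp⟩ := hH (by rw [hcard]; norm_num)
  have hlen : p.length = 58 := by rw [hp.length_eq, hcard]
  have f58 : p.getVert 58 = p.getVert 0 := by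
    rw [SimpleGraph.Walk.getVert_zero, ← hlen, SimpleGraph.Walk.getVert_length]
  have hadj : ∀ i < 58, G.Adj (p.getVert i) (p.getVert (i + 1)) :=
    fun i hi => p.adj_getVert_succ (by rw [hlen]; exact hi)
  have hinj : ∀ i j, i < 58 → j < 58 → p.getVert i = p.getVert j → i = j := by
    intro i j hi hj h
    refine hp.isCycle.getVert_injOn' ?_ ?_ h
    · change i ≤ p.length - 1
      omega
    · change j ≤ p.length - 1
      omega
  have hsurj : ∀ v, ∃ k < 58, p.getVert k = v := by
    intro v
    obtain ⟨n, hn, hle⟩ := SimpleGraph.Walk.mem_support_iff_exists_getVert.1 (hp.mem_support v)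
    rcases Nat.lt_or_ge n 58 with h | h
    · exact ⟨n, h, hn⟩
    · have : n = 58 := by omega
      subst this
      exact ⟨0, by norm_num, by rw [← f58]; exact hn⟩
  generalize p.getVert = f at f58 hadj hinj hsurj
  let P : ℕ → G.edgeSet → Prop := fun r e => ∃ i < 58, i % 2 = r ∧ e.1 = s(f i, f (i + 1))
  let c : G.edgeSet → Fin 3 := fun e => if P 0 e then 0 else if P 1 e then 1 else 2
  have key : ∀ k < 58, ∀ i < 58, f k ∈ s(f i, f (i + 1)) → i = k ∨ i + 1 = k ∨ (i = 57 ∧ k = 0) := by
    intro k hk i hi hmem
    rw [Sym2.mem_iff] at hmem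
    rcases hmem with h | h
    · exact Or.inl (hinj i k hi hk h.symm)
    · right
      rcases Nat.lt_or_ge (i + 1) 58 with h' | h'
      · exact Or.inl (hinj (i + 1) k h' hk h.symm)
      · have e : i + 1 = 58 := by omega
        rw [e, f58] at h
        exact Or.inr ⟨by omega, hinj k 0 hk (by norm_num) h⟩
  refine ⟨SimpleGraph.Coloring.mk c ?_⟩
  intro e e' hee
  rw [SimpleGraph.lineGraph_adj_iff_exists] at hee
  obtain ⟨hne, v, hv, hv'⟩ := hee
  obtain ⟨k, hk, rfl⟩ := hsurj v
  have hsame : ∀ r, P r e → P r e' → False := by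
    rintro r ⟨i, hi, hir, hie⟩ ⟨j, hj, hjr, hje⟩
    have h1 := key k hk i hi (by rw [← hie]; exact hv)
    have h2 := key k hk j hj (by rw [← hje]; exact hv')
    have : i = j := by omega
    subst this
    exact hne (Subtype.ext (by rw [hie, hje]))
  have hnone : ¬ P 0 e → ¬ P 1 e → ¬ P 0 e' → ¬ P 1 e' → False := by
    intro a0 a1 b0 b1
    have na : ∀ i < 58, e.1 ≠ s(f i, f (i + 1)) := by
      intro i hi h
      rcases Nat.mod_two_eq_zero_or_one i with h' | h'
      · exact a0 ⟨i, hi, h', h⟩
      · exact a1 ⟨i, hi, h', h⟩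
    have nb : ∀ i < 58, e'.1 ≠ s(f i, f (i + 1)) := by
      intro i hi h
      rcases Nat.mod_two_eq_zero_or_one i with h' | h'
      · exact b0 ⟨i, hi, h', h⟩
      · exact b1 ⟨i, hi, h', h⟩
    obtain ⟨x, hx⟩ := Sym2.mem_iff_exists.1 hv
    obtain ⟨y, hy⟩ := Sym2.mem_iff_exists.1 hv'
    have hxy : x ≠ y := by
      rintro rfl
      exact hne (Subtype.ext (by rw [hx, hy]))
    have ax : G.Adj (f k) x := by
      have := e.2
      rw [hx] at this
      exact this
    have ay : G.Adj (f k) y := by
      have := e'.2
      rw [hy] at this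
      exact this
    obtain ⟨k', hk', hkk⟩ : ∃ k' < 58, (k' + 1 = k ∨ (k' = 57 ∧ k = 0)) := by
      rcases Nat.eq_zero_or_pos k with h | h
      · exact ⟨57, by norm_num, Or.inr ⟨rfl, h⟩⟩
      · exact ⟨k - 1, by omega, Or.inl (by omega)⟩
    have hfk : f (k' + 1) = f k := by
      rcases hkk with h | ⟨h, h'⟩
      · rw [h]
      · rw [h, h']
        exact f58
    have x1 : x ≠ f (k + 1) := by
      rintro rfl
      exact na k hk hx
    have y1 : y ≠ f (k + 1) := by
      rintro rfl
      exact nb k hk hy
    have x2 : x ≠ f k' := by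
      rintro rfl
      exact na k' hk' (by rw [hx, hfk]; exact Sym2.eq_swap)
    have y2 : y ≠ f k' := by
      rintro rfl
      exact nb k' hk' (by rw [hy, hfk]; exact Sym2.eq_swap)
    have z : f (k + 1) ≠ f k' := by
      intro h
      rcases Nat.lt_or_ge (k + 1) 58 with h' | h'
      · have := hinj (k + 1) k' h' hk' h
        omega
      · have e : k + 1 = 58 := by omega
        rw [e, f58] at h
        have := hinj 0 k' (by norm_num) hk' h
        omega
    have a1' : G.Adj (f k) (f (k + 1)) := hadj k hk
    have a2' : G.Adj (f k) (f k') := by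
      have := (hadj k' hk').symm
      rwa [hfk] at this
    have hsub : ({x, y, f (k + 1), f k'} : Finset V) ⊆ G.neighborFinset (f k) := by
      intro w hw
      rw [SimpleGraph.mem_neighborFinset]
      simp only [Finset.mem_insert, Finset.mem_singleton] at hw
      rcases hw with rfl | rfl | rfl | rfl
      · exact ax
      · exact ay
      · exact a1'
      · exact a2'
    have h4 : ({x, y, f (k + 1), f k'} : Finset V).card = 4 := by
      rw [Finset.card_insert_of_notMem, Finset.card_insert_of_notMem,
        Finset.card_insert_of_notMem, Finset.card_singleton]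
      · simpa using z
      · simp only [Finset.mem_insert, Finset.mem_singleton, not_or]
        exact ⟨y1, y2⟩
      · simp only [Finset.mem_insert, Finset.mem_singleton, not_or]
        exact ⟨hxy, x1, x2⟩
    have := Finset.card_le_card hsub
    rw [h4, SimpleGraph.card_neighborFinset_eq_degree, hdeg] at this
    omega
  change c e ≠ c e'
  simp only [c]
  intro h
  by_cases a0 : P 0 e
  · by_cases b0 : P 0 e'
    · exact hsame 0 a0 b0
    · rw [if_pos a0, if_neg b0] at h
      split_ifs at h <;> exact absurd h (by decide)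
  · by_cases b0 : P 0 e'
    · rw [if_neg a0, if_pos b0] at h
      split_ifs at h <;> exact absurd h (by decide)
    · rw [if_neg a0, if_neg b0] at h
      by_cases a1 : P 1 e
      · by_cases b1 : P 1 e'
        · exact hsame 1 a1 b1
        · rw [if_pos a1, if_neg b1] at h
          exact absurd h (by decide)
      · by_cases b1 : P 1 e'
        · rw [if_neg a1, if_pos b1] at h
          exact absurd h (by decide)
        · exact hnone a0 a1 b0 b1

end Pool.Agent.Helper517.HS
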